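import Pool.Agent.Lib.MP_4f30eb_co.MainPi

/-!
Volumetric weak epsilon-nets: every exponent `β > d` is admissible in dimension `d ≥ 2`, so
`α_d ≤ d < d + 1`.

Idea of the proof. Every convex set of volume one contains the cross-polytope
`conv {c ± a_k}` with `|det a|` bounded below. A simplicial-type partition of the centres `c`
(with crossing number about `r ^ (1 - 1/d) log r`) gives the recursion of Matousek and Wagner
on the density. When it stops, the subfamily `G` has a deep point `q`: every closed halfspace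
containing `q` contains a constant fraction of the centres of `G`. By Caratheodory's theorem
(a coefficient is at least `1/(d+1)`) a constant fraction of the members `g` of `G` then satisfy
`q ± a_k^g/(d+1) ∈ conv G`. All these shapes lie in one parallelepiped, a range of bounded VC
dimension, so a member of a small net of shapes can be placed at `q`.
-/

open MeasureTheory

namespace Pool.Agent.Results.MP_4f30eb_co.ExponentAtMostDimension

/-- `S` is a volumetric weak `ε`-net of volume `v` for the family `A`: its members are measurable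
sets of volume at least `v`, and for every subfamily `G` with at least `ε |A|` members the convex
hull of the union of `G` contains a member of `S`. -/
def IsVolNet {d : ℕ} {ι : Type} [Fintype ι] (A : ι → Set (EuclideanSpace ℝ (Fin d))) (ε v : ℝ)
    (S : Finset (Set (EuclideanSpace ℝ (Fin d)))) : Prop :=
  (∀ B ∈ S, MeasurableSet B ∧ ENNReal.ofReal v ≤ volume B) ∧
    ∀ G : Finset ι, ε * Fintype.card ι ≤ G.card → ∃ B ∈ S, B ⊆ convexHull ℝ (⋃ i ∈ G, A i)

/-- The exponent `α` is admissible in dimension `d`: there are `v > 0` and `C` such that for every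
`ε ∈ (0, 1]` every nonempty finite family of convex sets of volume `1` has a volumetric weak
`ε`-net of volume `v` with at most `C ε ^ (-α)` members. -/
def Admissible (d : ℕ) (α : ℝ) : Prop :=
  ∃ v : ℝ, 0 < v ∧ ∃ C : ℝ, ∀ ε : ℝ, 0 < ε → ε ≤ 1 → ∀ (ι : Type) [Fintype ι] [Nonempty ι]
    (A : ι → Set (EuclideanSpace ℝ (Fin d))), (∀ i, Convex ℝ (A i)) → (∀ i, volume (A i) = 1) →
    ∃ S : Finset (Set (EuclideanSpace ℝ (Fin d))), (S.card : ℝ) ≤ C * ε ^ (-α) ∧ IsVolNet A ε v S

/-- `α_d`: the infimum of the admissible positive exponents in dimension `d`. -/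
noncomputable def alpha (d : ℕ) : ℝ := sInf {α : ℝ | 0 < α ∧ Admissible d α}

open Classical in
theorem admissible_of_lt (d : ℕ) (hd : 2 ≤ d) (β : ℝ) (hβ : (d : ℝ) < β) : Admissible d β := by
  obtain ⟨v, hv, C, h⟩ := MP4f30eb.main_pi d hd β hβ
  refine ⟨v, hv, C, fun ε hε _ ι _ _ A hA hvol => ?_⟩
  let e : EuclideanSpace ℝ (Fin d) ≃ₗ[ℝ] (Fin d → ℝ) := WithLp.linearEquiv 2 ℝ (Fin d → ℝ)
  have hmp : MeasurePreserving (MeasurableEquiv.toLp 2 (Fin d → ℝ)).symm :=
    EuclideanSpace.volume_preserving_symm_measurableEquiv_toLp (Fin d)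
  obtain ⟨S, hS1, hS2, hS3⟩ := h ε hε ι (fun i => e.symm ⁻¹' (A i))
    (fun i => (hA i).linear_preimage e.symm.toLinearMap)
    (fun i => by
      have := hmp.symm.measure_preimage_equiv (A i)
      rw [← hvol i, ← this]
      rfl)
  refine ⟨S.image (fun B => e ⁻¹' B), ?_, ?_, ?_⟩
  · have : ((S.image (fun B => e ⁻¹' B)).card : ℝ) ≤ S.card := by
      exact_mod_cast Finset.card_image_le
    linarith
  · intro B hB
    obtain ⟨B', hB', rfl⟩ := Finset.mem_image.1 hB
    obtain ⟨h1, _, h3⟩ := hS2 B' hB'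
    refine ⟨(MeasurableEquiv.toLp 2 (Fin d → ℝ)).symm.measurable h1.measurableSet, ?_⟩
    have := hmp.measure_preimage_equiv B'
    refine h3.trans (le_of_eq ?_)
    rw [← this]
    rfl
  · intro G hG
    obtain ⟨B, hB, hsub⟩ := hS3 G hG
    refine ⟨e ⁻¹' B, Finset.mem_image_of_mem _ hB, ?_⟩
    intro x hx
    have h1 : e x ∈ convexHull ℝ (⋃ i ∈ G, e.symm ⁻¹' (A i)) := hsub hx
    have h2 : e.symm (e x) ∈ e.symm '' (convexHull ℝ (⋃ i ∈ G, e.symm ⁻¹' (A i))) := ⟨_, h1, rfl⟩
    rw [e.symm_apply_apply] at h2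
    have h3 : e.symm '' (convexHull ℝ (⋃ i ∈ G, e.symm ⁻¹' (A i))) =
        convexHull ℝ (e.symm '' (⋃ i ∈ G, e.symm ⁻¹' (A i))) :=
      e.symm.toLinearMap.image_convexHull _
    rw [h3] at h2
    refine convexHull_mono ?_ h2
    rintro y ⟨z, hz, rfl⟩
    simp only [Set.mem_iUnion, Set.mem_preimage] at hz ⊢
    exact hz

/-- For every `d ≥ 2` every exponent `β > d` is admissible in dimension `d`; in particular
`α_d < d + 1`. -/
theorem result (d : ℕ) (hd : 2 ≤ d) :
    (∀ β : ℝ, (d : ℝ) < β → Admissible d β) ∧ alpha d < (d : ℝ) + 1 := by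
  refine ⟨admissible_of_lt d hd, ?_⟩
  have h : alpha d ≤ (d : ℝ) + 1 / 2 :=
    csInf_le ⟨0, fun α hα => hα.1.le⟩ ⟨by positivity, admissible_of_lt d hd _ (by linarith)⟩
  linarith

end Pool.Agent.Results.MP_4f30eb_co.ExponentAtMostDimension
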